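import Pool.Agent.N332.GK.Defs

set_option autoImplicit false

/-! Project GK, leaf L1. -/

namespace Pool.Agent.N368.GK

open Pool.Agent.N332.GK

theorem lam_succ (k : ℕ) : lam (k + 1) = (2 * (k : ℝ) + 1) / ((k : ℝ) + 1) * lam k := by
  unfold lam
  have h1 : (2 * (k + 1)).choose (k + 1) = Nat.centralBinom (k + 1) := (Nat.centralBinom_eq_two_mul_choose (k + 1)).symm
  have h2 : (2 * k).choose k = Nat.centralBinom k := (Nat.centralBinom_eq_two_mul_choose k).symm
  rw [h1, h2]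
  have h3 := Nat.succ_mul_centralBinom_succ k
  have h4 : ((k : ℝ) + 1) * (Nat.centralBinom (k + 1) : ℝ) = 2 * (2 * k + 1) * (Nat.centralBinom k : ℝ) := by
    exact_mod_cast h3
  have hk : (0 : ℝ) < (k : ℝ) + 1 := by positivity
  rw [pow_succ]
  field_simp
  linarith

theorem lam_le {k : ℕ} (hk : 6 ≤ k) : lam k ≤ (2 - 7 / (4 * (k : ℝ))) ^ (k - 1) := by
  induction k, hk using Nat.le_induction with
  | base =>
    unfold lam
    have h : ((2 * 6).choose 6 : ℕ) = 924 := by decide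
    rw [h]
    norm_num
  | succ k hk ih =>
    rw [lam_succ, Nat.add_sub_cancel]
    have hkr : (6 : ℝ) ≤ k := by exact_mod_cast hk
    obtain ⟨a, ha⟩ : ∃ a : ℝ, a = 2 - 7 / (4 * (k : ℝ)) := ⟨_, rfl⟩
    obtain ⟨b, hb⟩ : ∃ b : ℝ, b = 2 - 7 / (4 * ((k : ℝ) + 1)) := ⟨_, rfl⟩
    obtain ⟨x, hx⟩ : ∃ x : ℝ, x = (7 / 4) / (((k : ℝ) + 1) * (2 * k - 7 / 4)) := ⟨_, rfl⟩
    have hk1 : (0 : ℝ) < (k : ℝ) + 1 := by linarith
    have hk2 : (0 : ℝ) < 2 * (k : ℝ) - 7 / 4 := by linarith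
    have hk0 : (0 : ℝ) < k := by linarith
    have ha' : a = (2 * k - 7 / 4) / k := by rw [ha]; field_simp
    have hb' : b = (2 * k + 1 / 4) / (k + 1) := by rw [hb]; field_simp; ring
    have ha0 : 0 < a := by rw [ha']; positivity
    have hb0 : 0 < b := by rw [hb']; positivity
    have hx0 : 0 < x := by rw [hx]; positivity
    have hba : b = a * (1 + x) := by
      obtain ⟨c, hc⟩ : ∃ c : ℝ, c = 2 * (k : ℝ) - 7 / 4 := ⟨_, rfl⟩
      rw [← hc] at hk2
      have hc' : (2 * (k : ℝ) + 1 / 4) = (c * (k + 1) + 7 / 4) / k := by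
        rw [hc]
        field_simp
        ring
      rw [ha', hb', hx, ← hc, hc']
      field_simp
    have hbern : 1 + ((k - 1 : ℕ) : ℝ) * x ≤ (1 + x) ^ (k - 1) := one_add_mul_le_pow (by linarith) _
    rw [Nat.cast_sub (by omega), Nat.cast_one] at hbern
    have hkey : (2 * (k : ℝ) + 1) / ((k : ℝ) + 1) ≤ b * (1 + ((k : ℝ) - 1) * x) := by
      rw [hb', hx, div_mul_eq_mul_div, div_le_div_iff_of_pos_right hk1]
      have h5 : ((k : ℝ) - 1) * (7 / 4 / (((k : ℝ) + 1) * (2 * k - 7 / 4))) =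
          (((k : ℝ) - 1) * (7 / 4)) / (((k : ℝ) + 1) * (2 * k - 7 / 4)) := by ring
      have h6 : (3 / 4) / (2 * (k : ℝ) + 1 / 4) ≤ (((k : ℝ) - 1) * (7 / 4)) / (((k : ℝ) + 1) * (2 * k - 7 / 4)) := by
        rw [div_le_div_iff₀ (by linarith) (by positivity)]
        nlinarith
      rw [h5]
      have h7 : (2 * (k : ℝ) + 1 / 4) * (1 + (3 / 4) / (2 * (k : ℝ) + 1 / 4)) = 2 * k + 1 := by
        have : (2 * (k : ℝ) + 1 / 4) ≠ 0 := by linarith
        field_simp
        ring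
      rw [← h7]
      apply mul_le_mul_of_nonneg_left _ (by linarith)
      linarith
    have hpow : b ^ k = b * a ^ (k - 1) * (1 + x) ^ (k - 1) := by
      have h8 : b ^ k = b * b ^ (k - 1) := by
        rw [← pow_succ']
        congr 1
        omega
      rw [h8]
      conv_lhs => rw [show b ^ (k - 1) = (a * (1 + x)) ^ (k - 1) by rw [← hba]]
      rw [mul_pow]
      ring
    rw [← ha] at ih
    have hgoal : (2 - 7 / (4 * ((k + 1 : ℕ) : ℝ))) = b := by
      rw [hb]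
      push_cast
      rfl
    rw [hgoal, hpow]
    have ha1 : 0 ≤ a ^ (k - 1) := by positivity
    calc (2 * (k : ℝ) + 1) / ((k : ℝ) + 1) * lam k ≤ (2 * (k : ℝ) + 1) / ((k : ℝ) + 1) * a ^ (k - 1) :=
          mul_le_mul_of_nonneg_left ih (by positivity)
      _ ≤ b * (1 + ((k : ℝ) - 1) * x) * a ^ (k - 1) := mul_le_mul_of_nonneg_right hkey ha1
      _ ≤ b * (1 + x) ^ (k - 1) * a ^ (k - 1) := by
          apply mul_le_mul_of_nonneg_right _ ha1
          exact mul_le_mul_of_nonneg_left hbern hb0.le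
      _ = _ := by ring

end Pool.Agent.N368.GK
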